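import Mathlib

set_option autoImplicit false

namespace Pool.Agent.Results.MP_5c7d49_an.ConstantNumerator

def StateE (l : ℕ → ℝ) (m : ℝ) (n : ℕ) : Prop :=
  l n ≤ 0 ∧ l (n + 1) ≤ 0 ∧ m ≤ l (n + 2) ∧ l (n + 2) + m ≤ l (n + 3)

def StateG (l : ℕ → ℝ) (m : ℝ) (n : ℕ) : Prop :=
  l n ≤ l (n + 3) ∧ l (n + 1) ≤ -m ∧ l (n + 2) ≤ 0 ∧ m ≤ l (n + 1) + l (n + 3)

lemma cycleE (l : ℕ → ℝ) (K : ℝ)
    (H : ∀ n, |l (n + 4) - (max 0 (l n) - max (l (n + 2)) (l (n + 1)))| ≤ K)
    (n : ℕ) (m : ℝ) (hm : 200 * K ≤ m) (hm0 : 0 < m) (hS : StateE l m n) :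
    StateE l (3 / 2 * m) (n + 9) := by
  obtain ⟨h1, h2, h3, h4⟩ := hS
  have e1 : |l (n + 4) - (max 0 (l n) - max (l (n + 2)) (l (n + 1)))| ≤ K := H n
  rw [max_eq_left h1, max_eq_left (show l (n + 1) ≤ l (n + 2) by linarith)] at e1
  obtain ⟨p1, q1⟩ := abs_le.mp e1
  have e2 : |l (n + 5) - (max 0 (l (n + 1)) - max (l (n + 3)) (l (n + 2)))| ≤ K := H (n + 1)
  rw [max_eq_left h2, max_eq_left (show l (n + 2) ≤ l (n + 3) by linarith)] at e2
  obtain ⟨p2, q2⟩ := abs_le.mp e2
  have e3 : |l (n + 6) - (max 0 (l (n + 2)) - max (l (n + 4)) (l (n + 3)))| ≤ K := H (n + 2)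
  rw [max_eq_right (show 0 ≤ l (n + 2) by linarith),
    max_eq_right (show l (n + 4) ≤ l (n + 3) by linarith)] at e3
  obtain ⟨p3, q3⟩ := abs_le.mp e3
  have e4 : |l (n + 7) - (max 0 (l (n + 3)) - max (l (n + 5)) (l (n + 4)))| ≤ K := H (n + 3)
  rw [max_eq_right (show 0 ≤ l (n + 3) by linarith),
    max_eq_right (show l (n + 5) ≤ l (n + 4) by linarith)] at e4
  obtain ⟨p4, q4⟩ := abs_le.mp e4
  have e5 : |l (n + 8) - (max 0 (l (n + 4)) - max (l (n + 6)) (l (n + 5)))| ≤ K := H (n + 4)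
  rw [max_eq_left (show l (n + 4) ≤ 0 by linarith),
    max_eq_left (show l (n + 5) ≤ l (n + 6) by linarith)] at e5
  obtain ⟨p5, q5⟩ := abs_le.mp e5
  have e6 : |l (n + 9) - (max 0 (l (n + 5)) - max (l (n + 7)) (l (n + 6)))| ≤ K := H (n + 5)
  rw [max_eq_left (show l (n + 5) ≤ 0 by linarith),
    max_eq_left (show l (n + 6) ≤ l (n + 7) by linarith)] at e6
  obtain ⟨p6, q6⟩ := abs_le.mp e6
  have e7 : |l (n + 10) - (max 0 (l (n + 6)) - max (l (n + 8)) (l (n + 7)))| ≤ K := H (n + 6)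
  rw [max_eq_left (show l (n + 6) ≤ 0 by linarith),
    max_eq_right (show l (n + 8) ≤ l (n + 7) by linarith)] at e7
  obtain ⟨p7, q7⟩ := abs_le.mp e7
  have e8 : |l (n + 11) - (max 0 (l (n + 7)) - max (l (n + 9)) (l (n + 8)))| ≤ K := H (n + 7)
  rw [max_eq_right (show 0 ≤ l (n + 7) by linarith),
    max_eq_right (show l (n + 9) ≤ l (n + 8) by linarith)] at e8
  obtain ⟨p8, q8⟩ := abs_le.mp e8
  have e9 : |l (n + 12) - (max 0 (l (n + 8)) - max (l (n + 10)) (l (n + 9)))| ≤ K := H (n + 8)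
  rw [max_eq_right (show 0 ≤ l (n + 8) by linarith)] at e9
  obtain ⟨p9, q9⟩ := abs_le.mp e9
  have t1 : l (n + 10) ≤ max (l (n + 10)) (l (n + 9)) := le_max_left _ _
  have t2 : max (l (n + 10)) (l (n + 9)) ≤ -l (n + 7) + 2 * K :=
    max_le (by linarith) (by linarith)
  refine ⟨?_, ?_, ?_, ?_⟩
  · show l (n + 9) ≤ 0
    linarith
  · show l (n + 10) ≤ 0
    linarith
  · show 3 / 2 * m ≤ l (n + 11)
    linarith
  · show l (n + 11) + 3 / 2 * m ≤ l (n + 12)
    linarith

lemma cycleG (l : ℕ → ℝ) (K : ℝ)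
    (H : ∀ n, |l (n + 4) - (max 0 (l (n + 1)) - max (l (n + 3)) (l n))| ≤ K)
    (n : ℕ) (m : ℝ) (hm : 200 * K ≤ m) (hm0 : 0 < m) (hS : StateG l m n) :
    StateG l (3 / 2 * m) (n + 8) := by
  obtain ⟨h1, h2, h3, h4⟩ := hS
  have e1 : |l (n + 4) - (max 0 (l (n + 1)) - max (l (n + 3)) (l n))| ≤ K := H n
  rw [max_eq_left (show l (n + 1) ≤ 0 by linarith), max_eq_left h1] at e1
  obtain ⟨p1, q1⟩ := abs_le.mp e1
  have e2 : |l (n + 5) - (max 0 (l (n + 2)) - max (l (n + 4)) (l (n + 1)))| ≤ K := H (n + 1)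
  rw [max_eq_left h3, max_eq_right (show l (n + 4) ≤ l (n + 1) by linarith)] at e2
  obtain ⟨p2, q2⟩ := abs_le.mp e2
  have e3 : |l (n + 6) - (max 0 (l (n + 3)) - max (l (n + 5)) (l (n + 2)))| ≤ K := H (n + 2)
  rw [max_eq_right (show 0 ≤ l (n + 3) by linarith),
    max_eq_left (show l (n + 2) ≤ l (n + 5) by linarith)] at e3
  obtain ⟨p3, q3⟩ := abs_le.mp e3
  have e4 : |l (n + 7) - (max 0 (l (n + 4)) - max (l (n + 6)) (l (n + 3)))| ≤ K := H (n + 3)
  rw [max_eq_left (show l (n + 4) ≤ 0 by linarith),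
    max_eq_right (show l (n + 6) ≤ l (n + 3) by linarith)] at e4
  obtain ⟨p4, q4⟩ := abs_le.mp e4
  have e5 : |l (n + 8) - (max 0 (l (n + 5)) - max (l (n + 7)) (l (n + 4)))| ≤ K := H (n + 4)
  rw [max_eq_right (show 0 ≤ l (n + 5) by linarith)] at e5
  obtain ⟨p5, q5⟩ := abs_le.mp e5
  have t1 : l (n + 7) ≤ max (l (n + 7)) (l (n + 4)) := le_max_left _ _
  have t2 : max (l (n + 7)) (l (n + 4)) ≤ -l (n + 3) + K :=
    max_le (by linarith) (by linarith)
  have e6 : |l (n + 9) - (max 0 (l (n + 6)) - max (l (n + 8)) (l (n + 5)))| ≤ K := H (n + 5)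
  rw [max_eq_right (show 0 ≤ l (n + 6) by linarith),
    max_eq_left (show l (n + 5) ≤ l (n + 8) by linarith)] at e6
  obtain ⟨p6, q6⟩ := abs_le.mp e6
  have e7 : |l (n + 10) - (max 0 (l (n + 7)) - max (l (n + 9)) (l (n + 6)))| ≤ K := H (n + 6)
  rw [max_eq_left (show l (n + 7) ≤ 0 by linarith),
    max_eq_right (show l (n + 9) ≤ l (n + 6) by linarith)] at e7
  obtain ⟨p7, q7⟩ := abs_le.mp e7
  have e8 : |l (n + 11) - (max 0 (l (n + 8)) - max (l (n + 10)) (l (n + 7)))| ≤ K := H (n + 7)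
  rw [max_eq_right (show 0 ≤ l (n + 8) by linarith),
    max_eq_left (show l (n + 7) ≤ l (n + 10) by linarith)] at e8
  obtain ⟨p8, q8⟩ := abs_le.mp e8
  refine ⟨?_, ?_, ?_, ?_⟩
  · show l (n + 8) ≤ l (n + 11)
    linarith
  · show l (n + 9) ≤ -(3 / 2 * m)
    linarith
  · show l (n + 10) ≤ 0
    linarith
  · show 3 / 2 * m ≤ l (n + 9) + l (n + 11)
    linarith

lemma unbounded_of_step (l : ℕ → ℝ) (S : ℝ → ℕ → Prop) (m : ℝ) (hm0 : 1 ≤ m) (P r : ℕ)
    (hstep : ∀ n m', m ≤ m' → S m' n → S (3 / 2 * m') (n + P))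
    (hpeak : ∀ n m', m ≤ m' → S m' n → m' ≤ l (n + r))
    (h0 : S m 0) (M : ℝ) : ∃ n, M < l n := by
  have key : ∀ k : ℕ, S ((3 / 2) ^ k * m) (P * k) := by
    intro k
    induction k with
    | zero => simpa using h0
    | succ k ih =>
      have h1k : (1 : ℝ) ≤ (3 / 2) ^ k := one_le_pow₀ (by norm_num)
      have h := hstep (P * k) ((3 / 2) ^ k * m) (by nlinarith) ih
      have e : (3 / 2 : ℝ) ^ (k + 1) * m = 3 / 2 * ((3 / 2) ^ k * m) := by ring
      rw [e]; exact h
  obtain ⟨k, hk⟩ := pow_unbounded_of_one_lt M (by norm_num : (1 : ℝ) < 3 / 2)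
  have h1k : (1 : ℝ) ≤ (3 / 2) ^ k := one_le_pow₀ (by norm_num)
  have h := hpeak (P * k) ((3 / 2) ^ k * m) (by nlinarith) (key k)
  refine ⟨P * k + r, ?_⟩
  have h2 : (3 / 2 : ℝ) ^ k ≤ (3 / 2) ^ k * m := by nlinarith
  linarith

lemma log_num {α β w : ℝ} (hα : 0 < α) (hβ : 0 < β) (hw : 0 < w) :
    Real.log (min α β) + max 0 (Real.log w) ≤ Real.log (α + β * w) ∧
      Real.log (α + β * w) ≤ Real.log (α + β) + max 0 (Real.log w) := by
  have hp : 0 < min α β := lt_min hα hβ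
  rcases le_total w 1 with h | h
  · rw [max_eq_left (Real.log_nonpos hw.le h)]
    constructor
    · rw [add_zero]
      apply Real.log_le_log hp
      have := min_le_left α β
      nlinarith [mul_pos hβ hw]
    · rw [add_zero]
      apply Real.log_le_log (by positivity)
      nlinarith
  · rw [max_eq_right (Real.log_nonneg h), ← Real.log_mul hp.ne' hw.ne',
      ← Real.log_mul (by positivity) hw.ne']
    constructor
    · apply Real.log_le_log (by positivity)
      have := mul_le_mul_of_nonneg_right (min_le_right α β) hw.le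
      linarith
    · apply Real.log_le_log (by positivity)
      nlinarith

lemma log_den {B C y z : ℝ} (hB : 0 < B) (hC : 0 < C) (hy : 0 < y) (hz : 0 < z) :
    Real.log (min B C) + max (Real.log y) (Real.log z) ≤ Real.log (B * y + C * z) ∧
      Real.log (B * y + C * z) ≤ Real.log (B + C) + max (Real.log y) (Real.log z) := by
  have hp : 0 < min B C := lt_min hB hC
  have hmax : max (Real.log y) (Real.log z) = Real.log (max y z) := by
    rcases le_total y z with h | h
    · rw [max_eq_right h, max_eq_right (Real.log_le_log hy h)]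
    · rw [max_eq_left h, max_eq_left (Real.log_le_log hz h)]
  have hm : 0 < max y z := lt_max_of_lt_left hy
  rw [hmax, ← Real.log_mul hp.ne' hm.ne', ← Real.log_mul (by positivity) hm.ne']
  constructor
  · apply Real.log_le_log (by positivity)
    rcases le_total y z with h | h
    · rw [max_eq_right h]
      have : min B C * z ≤ C * z := mul_le_mul_of_nonneg_right (min_le_right _ _) hz.le
      nlinarith [mul_pos hB hy]
    · rw [max_eq_left h]
      have : min B C * y ≤ B * y := mul_le_mul_of_nonneg_right (min_le_left _ _) hy.le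
      nlinarith [mul_pos hC hz]
  · apply Real.log_le_log (by positivity)
    have h1 : y ≤ max y z := le_max_left _ _
    have h2 : z ≤ max y z := le_max_right _ _
    nlinarith

/-- The constant that bounds all the errors. -/
noncomputable def Kc (α β B C : ℝ) : ℝ :=
  |Real.log (min α β)| + |Real.log (α + β)| + |Real.log (min B C)| + |Real.log (B + C)|

lemma log_step {α β B C w y z v : ℝ} (hα : 0 < α) (hβ : 0 < β) (hB : 0 < B) (hC : 0 < C)
    (hw : 0 < w) (hy : 0 < y) (hz : 0 < z) (hv : v = (α + β * w) / (B * y + C * z)) :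
    |Real.log v - (max 0 (Real.log w) - max (Real.log y) (Real.log z))| ≤ Kc α β B C := by
  obtain ⟨n1, n2⟩ := log_num hα hβ hw
  obtain ⟨d1, d2⟩ := log_den hB hC hy hz
  rw [hv, Real.log_div (by positivity) (by positivity)]
  unfold Kc
  have a1 := abs_le.mp (le_refl |Real.log (min α β)|)
  have a2 := abs_le.mp (le_refl |Real.log (α + β)|)
  have a3 := abs_le.mp (le_refl |Real.log (min B C)|)
  have a4 := abs_le.mp (le_refl |Real.log (B + C)|)
  have b1 := abs_nonneg (Real.log (min α β))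
  have b2 := abs_nonneg (Real.log (α + β))
  have b3 := abs_nonneg (Real.log (min B C))
  have b4 := abs_nonneg (Real.log (B + C))
  rw [abs_le]
  constructor <;> linarith [a1.1, a1.2, a2.1, a2.2, a3.1, a3.2, a4.1, a4.2]

lemma exists_solution (f : ℝ → ℝ → ℝ → ℝ → ℝ) (a b c d : ℝ) :
    ∃ x : ℕ → ℝ, x 0 = a ∧ x 1 = b ∧ x 2 = c ∧ x 3 = d ∧
      ∀ n, x (n + 4) = f (x n) (x (n + 1)) (x (n + 2)) (x (n + 3)) := by
  let step : ℝ × ℝ × ℝ × ℝ → ℝ × ℝ × ℝ × ℝ := fun s =>
    (s.2.1, s.2.2.1, s.2.2.2, f s.1 s.2.1 s.2.2.1 s.2.2.2)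
  have h1 : ∀ n, (step^[n + 1] (a, b, c, d)).1 = (step^[n] (a, b, c, d)).2.1 := by
    intro n; rw [Function.iterate_succ_apply']
  have h2 : ∀ n, (step^[n + 1] (a, b, c, d)).2.1 = (step^[n] (a, b, c, d)).2.2.1 := by
    intro n; rw [Function.iterate_succ_apply']
  have h3 : ∀ n, (step^[n + 1] (a, b, c, d)).2.2.1 = (step^[n] (a, b, c, d)).2.2.2 := by
    intro n; rw [Function.iterate_succ_apply']
  have h4 : ∀ n, (step^[n + 1] (a, b, c, d)).2.2.2 =
      f (step^[n] (a, b, c, d)).1 (step^[n] (a, b, c, d)).2.1 (step^[n] (a, b, c, d)).2.2.1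
        (step^[n] (a, b, c, d)).2.2.2 := by
    intro n; rw [Function.iterate_succ_apply']
  refine ⟨fun n => (step^[n] (a, b, c, d)).1, rfl, rfl, rfl, rfl, ?_⟩
  intro n
  show (step^[n + 4] (a, b, c, d)).1 = f (step^[n] (a, b, c, d)).1 (step^[n + 1] (a, b, c, d)).1
    (step^[n + 2] (a, b, c, d)).1 (step^[n + 3] (a, b, c, d)).1
  have e4 : (step^[n + 4] (a, b, c, d)).1 = (step^[n + 1] (a, b, c, d)).2.2.2 := by
    rw [h1 (n + 3), h2 (n + 2), h3 (n + 1)]
  have e3 : (step^[n + 3] (a, b, c, d)).1 = (step^[n] (a, b, c, d)).2.2.2 := by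
    rw [h1 (n + 2), h2 (n + 1), h3 n]
  have e2 : (step^[n + 2] (a, b, c, d)).1 = (step^[n] (a, b, c, d)).2.2.1 := by
    rw [h1 (n + 1), h2 n]
  rw [e4, e3, e2, h1 n, h4 n]

/-- **Two k = 4 cases with a constant in the numerator.** For all positive parameters each of
`x_n = (α + β x_{n-4}) / (B x_{n-2} + C x_{n-3})` and
`x_n = (α + β x_{n-3}) / (B x_{n-1} + C x_{n-4})` has an unbounded positive solution. -/
theorem result (α β B C : ℝ) (hα : 0 < α) (hβ : 0 < β) (hB : 0 < B) (hC : 0 < C) :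
    (∃ x : ℕ → ℝ, (∀ n, 0 < x n) ∧
      (∀ n, x (n + 4) = (α + β * x n) / (B * x (n + 2) + C * x (n + 1))) ∧
      ¬ BddAbove (Set.range x)) ∧
    (∃ x : ℕ → ℝ, (∀ n, 0 < x n) ∧
      (∀ n, x (n + 4) = (α + β * x (n + 1)) / (B * x (n + 3) + C * x n)) ∧
      ¬ BddAbove (Set.range x)) := by
  set m : ℝ := 200 * Kc α β B C + 1 with hmdef
  have hK : 0 ≤ Kc α β B C := by unfold Kc; positivity
  have hm1 : 1 ≤ m := by linarith
  constructor
  · obtain ⟨x, x0, x1, x2, x3, hrec⟩ := exists_solution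
      (fun a b c _ => (α + β * a) / (B * c + C * b)) 1 1 (Real.exp m) (Real.exp (2 * m))
    have hpos : ∀ n, 0 < x n ∧ 0 < x (n + 1) ∧ 0 < x (n + 2) ∧ 0 < x (n + 3) := by
      intro n
      induction n with
      | zero =>
        refine ⟨?_, ?_, ?_, ?_⟩
        · rw [x0]; norm_num
        · show 0 < x 1
          rw [x1]; norm_num
        · show 0 < x 2
          rw [x2]; positivity
        · show 0 < x 3
          rw [x3]; positivity
      | succ n ih =>
        obtain ⟨a, b, c, d⟩ := ih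
        refine ⟨b, c, d, ?_⟩
        have : x (n + 1 + 3) = (α + β * x n) / (B * x (n + 2) + C * x (n + 1)) := hrec n
        rw [this]; positivity
    have hx : ∀ n, 0 < x n := fun n => (hpos n).1
    refine ⟨x, hx, hrec, ?_⟩
    rintro ⟨M, hM⟩
    obtain ⟨n, hn⟩ := unbounded_of_step (fun n => Real.log (x n))
      (fun m' n => StateE (fun n => Real.log (x n)) m' n) m hm1 9 2
      (fun n m' h hS => cycleE (fun n => Real.log (x n)) (Kc α β B C)
        (fun n => log_step hα hβ hB hC (hx n) (hx (n + 2)) (hx (n + 1)) (hrec n))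
        n m' (by linarith) (by linarith) hS)
      (fun n m' h hS => hS.2.2.1)
      (by
        refine ⟨?_, ?_, ?_, ?_⟩
        · show Real.log (x 0) ≤ 0
          rw [x0, Real.log_one]
        · show Real.log (x 1) ≤ 0
          rw [x1, Real.log_one]
        · show m ≤ Real.log (x 2)
          rw [x2, Real.log_exp]
        · show Real.log (x 2) + m ≤ Real.log (x 3)
          rw [x2, x3, Real.log_exp, Real.log_exp]; linarith) |Real.log M|
    have hb : x n ≤ M := hM ⟨n, rfl⟩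
    have hb2 : Real.log (x n) ≤ Real.log M := Real.log_le_log (hx n) hb
    have hn' : |Real.log M| < Real.log (x n) := hn
    linarith [le_abs_self (Real.log M)]
  · obtain ⟨x, x0, x1, x2, x3, hrec⟩ := exists_solution
      (fun a b _ d => (α + β * b) / (B * d + C * a)) 1 (Real.exp (-m)) 1 (Real.exp (2 * m))
    have hpos : ∀ n, 0 < x n ∧ 0 < x (n + 1) ∧ 0 < x (n + 2) ∧ 0 < x (n + 3) := by
      intro n
      induction n with
      | zero =>
        refine ⟨?_, ?_, ?_, ?_⟩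
        · rw [x0]; norm_num
        · show 0 < x 1
          rw [x1]; positivity
        · show 0 < x 2
          rw [x2]; norm_num
        · show 0 < x 3
          rw [x3]; positivity
      | succ n ih =>
        obtain ⟨a, b, c, d⟩ := ih
        refine ⟨b, c, d, ?_⟩
        have : x (n + 1 + 3) = (α + β * x (n + 1)) / (B * x (n + 3) + C * x n) := hrec n
        rw [this]; positivity
    have hx : ∀ n, 0 < x n := fun n => (hpos n).1
    refine ⟨x, hx, hrec, ?_⟩
    rintro ⟨M, hM⟩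
    obtain ⟨n, hn⟩ := unbounded_of_step (fun n => Real.log (x n))
      (fun m' n => StateG (fun n => Real.log (x n)) m' n) m hm1 8 3
      (fun n m' h hS => cycleG (fun n => Real.log (x n)) (Kc α β B C)
        (fun n => log_step hα hβ hB hC (hx (n + 1)) (hx (n + 3)) (hx n) (hrec n))
        n m' (by linarith) (by linarith) hS)
      (fun n m' h hS => by
        obtain ⟨g1, g2, g3, g4⟩ := hS
        linarith)
      (by
        refine ⟨?_, ?_, ?_, ?_⟩
        · show Real.log (x 0) ≤ Real.log (x 3)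
          rw [x0, x3, Real.log_one, Real.log_exp]; linarith
        · show Real.log (x 1) ≤ -m
          rw [x1, Real.log_exp]
        · show Real.log (x 2) ≤ 0
          rw [x2, Real.log_one]
        · show m ≤ Real.log (x 1) + Real.log (x 3)
          rw [x1, x3, Real.log_exp, Real.log_exp]; linarith) |Real.log M|
    have hb : x n ≤ M := hM ⟨n, rfl⟩
    have hb2 : Real.log (x n) ≤ Real.log M := Real.log_le_log (hx n) hb
    have hn' : |Real.log M| < Real.log (x n) := hn
    linarith [le_abs_self (Real.log M)]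

end Pool.Agent.Results.MP_5c7d49_an.ConstantNumerator
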