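import Mathlib

set_option autoImplicit false

namespace Pool.Agent.Results.MP_5c7d49_an.DelayedNumerator

/-- The state of the cycle at time `n`, with margin `m`. -/
def State (l : ℕ → ℝ) (m : ℝ) (n : ℕ) : Prop :=
  l n ≤ l (n + 3) ∧ l (n + 1) + l (n + 2) ≤ l (n + 3) ∧ l (n + 2) ≤ -m ∧
    m ≤ l (n + 2) + l (n + 3)

/-- Nine steps of `l(n+4) = max (l(n+3), l n) - l(n+2)`, with errors at most `K`. -/
lemma cycle (l : ℕ → ℝ) (K : ℝ) (hK : 0 ≤ K)
    (H1 : ∀ n, l n ≤ l (n + 3) → 0 ≤ l (n + 3) →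
      l (n + 3) - l (n + 2) - K ≤ l (n + 4) ∧ l (n + 4) ≤ l (n + 3) - l (n + 2) + K)
    (H4 : ∀ n, l (n + 3) ≤ l n → 0 ≤ l n →
      l n - l (n + 2) - K ≤ l (n + 4) ∧ l (n + 4) ≤ l n - l (n + 2) + K)
    (n : ℕ) (m : ℝ) (hm : 200 * K ≤ m) (hm0 : 0 < m) (hS : State l m n) :
    State l (3 / 2 * m) (n + 9) ∧ m / 2 ≤ l (n + 5) := by
  obtain ⟨h1, h2, h3, h4⟩ := hS
  obtain ⟨p1, q1⟩ : l (n + 3) - l (n + 2) - K ≤ l (n + 4) ∧ l (n + 4) ≤ l (n + 3) - l (n + 2) + K :=
    H1 n h1 (by linarith)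
  obtain ⟨p2, q2⟩ : l (n + 4) - l (n + 3) - K ≤ l (n + 5) ∧
      l (n + 5) ≤ l (n + 4) - l (n + 3) + 2 * K := by
    rcases le_total (l (n + 1)) (l (n + 4)) with h | h
    · have e : l (n + 4) - l (n + 3) - K ≤ l (n + 5) ∧ l (n + 5) ≤ l (n + 4) - l (n + 3) + K :=
        H1 (n + 1) h (show 0 ≤ l (n + 4) by linarith)
      exact ⟨e.1, by linarith [e.2]⟩
    · have e : l (n + 1) - l (n + 3) - K ≤ l (n + 5) ∧ l (n + 5) ≤ l (n + 1) - l (n + 3) + K :=
        H4 (n + 1) h (show 0 ≤ l (n + 1) by linarith)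
      constructor
      · linarith [e.1]
      · linarith [e.2]
  obtain ⟨p3, q3⟩ : l (n + 5) - l (n + 4) - K ≤ l (n + 6) ∧ l (n + 6) ≤ l (n + 5) - l (n + 4) + K :=
    H1 (n + 2) (show l (n + 2) ≤ l (n + 5) by linarith) (show 0 ≤ l (n + 5) by linarith)
  obtain ⟨p4, q4⟩ : l (n + 3) - l (n + 5) - K ≤ l (n + 7) ∧ l (n + 7) ≤ l (n + 3) - l (n + 5) + K :=
    H4 (n + 3) (show l (n + 6) ≤ l (n + 3) by linarith) (show 0 ≤ l (n + 3) by linarith)
  obtain ⟨p5, q5⟩ : l (n + 4) - l (n + 6) - K ≤ l (n + 8) ∧ l (n + 8) ≤ l (n + 4) - l (n + 6) + K :=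
    H4 (n + 4) (show l (n + 7) ≤ l (n + 4) by linarith) (show 0 ≤ l (n + 4) by linarith)
  obtain ⟨p6, q6⟩ : l (n + 8) - l (n + 7) - K ≤ l (n + 9) ∧ l (n + 9) ≤ l (n + 8) - l (n + 7) + K :=
    H1 (n + 5) (show l (n + 5) ≤ l (n + 8) by linarith) (show 0 ≤ l (n + 8) by linarith)
  obtain ⟨p7, q7⟩ : l (n + 9) - l (n + 8) - K ≤ l (n + 10) ∧
      l (n + 10) ≤ l (n + 9) - l (n + 8) + K :=
    H1 (n + 6) (show l (n + 6) ≤ l (n + 9) by linarith) (show 0 ≤ l (n + 9) by linarith)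
  obtain ⟨p8, q8⟩ : l (n + 7) - l (n + 9) - K ≤ l (n + 11) ∧
      l (n + 11) ≤ l (n + 7) - l (n + 9) + K :=
    H4 (n + 7) (show l (n + 10) ≤ l (n + 7) by linarith) (show 0 ≤ l (n + 7) by linarith)
  obtain ⟨p9, q9⟩ : l (n + 8) - l (n + 10) - K ≤ l (n + 12) ∧
      l (n + 12) ≤ l (n + 8) - l (n + 10) + K :=
    H4 (n + 8) (show l (n + 11) ≤ l (n + 8) by linarith) (show 0 ≤ l (n + 8) by linarith)
  refine ⟨⟨?_, ?_, ?_, ?_⟩, by linarith⟩
  · show l (n + 9) ≤ l (n + 12)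
    linarith
  · show l (n + 10) + l (n + 11) ≤ l (n + 12)
    linarith
  · show l (n + 11) ≤ -(3 / 2 * m)
    linarith
  · show 3 / 2 * m ≤ l (n + 11) + l (n + 12)
    linarith

/-- A step with growing margins that reaches height `m / 2` forces unboundedness. -/
lemma unbounded_of_step (l : ℕ → ℝ) (S : ℝ → ℕ → Prop) (m : ℝ) (hm0 : 1 ≤ m)
    (hstep : ∀ n m', m ≤ m' → S m' n → S (3 / 2 * m') (n + 9) ∧ m' / 2 ≤ l (n + 5))
    (h0 : S m 0) (M : ℝ) : ∃ n, M < l n := by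
  have key : ∀ k : ℕ, S ((3 / 2) ^ k * m) (9 * k) := by
    intro k
    induction k with
    | zero => simpa using h0
    | succ k ih =>
      have h1k : (1 : ℝ) ≤ (3 / 2) ^ k := one_le_pow₀ (by norm_num)
      have h := (hstep (9 * k) ((3 / 2) ^ k * m) (by nlinarith) ih).1
      have e : (3 / 2 : ℝ) ^ (k + 1) * m = 3 / 2 * ((3 / 2) ^ k * m) := by ring
      rw [e]; exact h
  obtain ⟨k, hk⟩ := pow_unbounded_of_one_lt (2 * |M| + 1) (by norm_num : (1 : ℝ) < 3 / 2)
  have h1k : (1 : ℝ) ≤ (3 / 2) ^ k := one_le_pow₀ (by norm_num)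
  have h := (hstep (9 * k) ((3 / 2) ^ k * m) (by nlinarith) (key k)).2
  refine ⟨9 * k + 5, ?_⟩
  have h2 : (3 / 2 : ℝ) ^ k ≤ (3 / 2) ^ k * m := by nlinarith
  have h3 : M ≤ |M| := le_abs_self M
  linarith

/-- One step in logarithms: the numerator lies between `p t` and `q t`. -/
lemma log_step {B p q t u num y : ℝ} (hB : 0 < B) (hp : 0 < p) (hq : 0 < q) (ht : 0 < t)
    (hu : 0 < u) (h1 : p * t ≤ num) (h2 : num ≤ q * t) (hy : y = num / (B * u)) :
    Real.log t - Real.log u - (|Real.log p - Real.log B| + |Real.log q - Real.log B|) ≤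
        Real.log y ∧
      Real.log y ≤
        Real.log t - Real.log u + (|Real.log p - Real.log B| + |Real.log q - Real.log B|) := by
  have hd : 0 < num := lt_of_lt_of_le (by positivity) h1
  have l1 := Real.log_le_log (by positivity) h1
  have l2 := Real.log_le_log hd h2
  rw [Real.log_mul hp.ne' ht.ne'] at l1
  rw [Real.log_mul hq.ne' ht.ne'] at l2
  rw [hy, Real.log_div hd.ne' (by positivity), Real.log_mul hB.ne' hu.ne']
  have a1 := abs_nonneg (Real.log p - Real.log B)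
  have a2 := abs_nonneg (Real.log q - Real.log B)
  have b1 := neg_abs_le (Real.log p - Real.log B)
  have b2 := le_abs_self (Real.log q - Real.log B)
  constructor <;> linarith

/-- **The k = 4 cases `x_n = (α + β x_{n-1} + δ x_{n-4}) / (B x_{n-2})`, `α ≥ 0`.**
For all `β, δ, B > 0` and `α ≥ 0` there is `κ > 0` such that every solution with positive initial
values satisfying `x₀ ≤ x₃`, `x₁ x₂ ≤ x₃`, `κ x₂ ≤ 1`, `κ ≤ x₂ x₃` is unbounded; such solutions
exist. -/
theorem result (α β δ B : ℝ) (hα : 0 ≤ α) (hβ : 0 < β) (hδ : 0 < δ) (hB : 0 < B) :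
    ∃ κ : ℝ, 0 < κ ∧
      (∀ x : ℕ → ℝ, (0 < x 0 ∧ 0 < x 1 ∧ 0 < x 2 ∧ 0 < x 3) →
        (∀ n, x (n + 4) = (α + β * x (n + 3) + δ * x n) / (B * x (n + 2))) →
        x 0 ≤ x 3 → x 1 * x 2 ≤ x 3 → κ * x 2 ≤ 1 → κ ≤ x 2 * x 3 →
          ¬ BddAbove (Set.range x)) ∧
      (∃ x : ℕ → ℝ, (0 < x 0 ∧ 0 < x 1 ∧ 0 < x 2 ∧ 0 < x 3) ∧
        (∀ n, x (n + 4) = (α + β * x (n + 3) + δ * x n) / (B * x (n + 2))) ∧
        x 0 ≤ x 3 ∧ x 1 * x 2 ≤ x 3 ∧ κ * x 2 ≤ 1 ∧ κ ≤ x 2 * x 3) := by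
  set p : ℝ := min β δ with hpdef
  have hp : 0 < p := lt_min hβ hδ
  have hpβ : p ≤ β := min_le_left _ _
  have hpδ : p ≤ δ := min_le_right _ _
  set q : ℝ := α + β + δ with hqdef
  have hq : 0 < q := by positivity
  set K : ℝ := |Real.log p - Real.log B| + |Real.log q - Real.log B| with hKdef
  have hK : 0 ≤ K := by positivity
  set m : ℝ := 200 * K + 1 with hmdef
  have hm1 : 1 ≤ m := by rw [hmdef]; linarith
  have hm0 : 0 < m := by linarith
  refine ⟨Real.exp m, Real.exp_pos m, ?_, ?_⟩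
  · rintro x ⟨hx0, hx1, hx2, hx3⟩ hrec h03 h123 h2 h23 ⟨M, hM⟩
    have hpos : ∀ n, 0 < x n ∧ 0 < x (n + 1) ∧ 0 < x (n + 2) ∧ 0 < x (n + 3) := by
      intro n
      induction n with
      | zero => exact ⟨hx0, hx1, hx2, hx3⟩
      | succ n ih =>
        obtain ⟨a, b, c, d⟩ := ih
        refine ⟨b, c, d, ?_⟩
        have : x (n + 1 + 3) = (α + β * x (n + 3) + δ * x n) / (B * x (n + 2)) := hrec n
        rw [this]; positivity
    have hx : ∀ n, 0 < x n := fun n => (hpos n).1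
    have mono : ∀ {i j : ℕ}, Real.log (x i) ≤ Real.log (x j) → x i ≤ x j := by
      intro i j h
      exact (Real.log_le_log_iff (hx i) (hx j)).mp h
    have one_le : ∀ {i : ℕ}, 0 ≤ Real.log (x i) → 1 ≤ x i := by
      intro i h
      by_contra hc
      push Not at hc
      exact absurd (Real.log_neg (hx i) hc) (not_lt.mpr h)
    have i1 : Real.log (x 0) ≤ Real.log (x 3) := Real.log_le_log hx0 h03
    have i2 : Real.log (x 1) + Real.log (x 2) ≤ Real.log (x 3) := by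
      rw [← Real.log_mul hx1.ne' hx2.ne']
      exact Real.log_le_log (by positivity) h123
    have i3 : Real.log (x 2) ≤ -m := by
      have := Real.log_le_log (by positivity) h2
      rw [Real.log_mul (Real.exp_pos m).ne' hx2.ne', Real.log_exp, Real.log_one] at this
      linarith
    have i4 : m ≤ Real.log (x 2) + Real.log (x 3) := by
      have := Real.log_le_log (Real.exp_pos m) h23
      rwa [Real.log_exp, Real.log_mul hx2.ne' hx3.ne'] at this
    have big : ∃ n, |Real.log M| < Real.log (x n) := by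
      refine unbounded_of_step (fun n => Real.log (x n))
        (fun m' n => State (fun n => Real.log (x n)) m' n) m hm1 ?_ ⟨i1, i2, i3, i4⟩ |Real.log M|
      intro n m' hmm hS
      refine cycle (fun n => Real.log (x n)) K hK ?_ ?_ n m' (by linarith) (by linarith) hS
      · intro n h h1
        have h' : x n ≤ x (n + 3) := mono h
        have h1' : 1 ≤ x (n + 3) := one_le h1
        refine log_step hB hp hq (hx (n + 3)) (hx (n + 2)) ?_ ?_ (hrec n)
        · have := mul_le_mul_of_nonneg_right hpβ (hx (n + 3)).le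
          linarith [mul_pos hδ (hx n)]
        · have e1 := mul_le_mul_of_nonneg_left h' hδ.le
          have e2 := mul_le_mul_of_nonneg_left h1' hα
          rw [hqdef]; linarith
      · intro n h h1
        have h' : x (n + 3) ≤ x n := mono h
        have h1' : 1 ≤ x n := one_le h1
        refine log_step hB hp hq (hx n) (hx (n + 2)) ?_ ?_ (hrec n)
        · have := mul_le_mul_of_nonneg_right hpδ (hx n).le
          linarith [mul_pos hβ (hx (n + 3))]
        · have e1 := mul_le_mul_of_nonneg_left h' hβ.le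
          have e2 := mul_le_mul_of_nonneg_left h1' hα
          rw [hqdef]; linarith
    obtain ⟨n, hn⟩ := big
    have hb : x n ≤ M := hM ⟨n, rfl⟩
    have hb2 : Real.log (x n) ≤ Real.log M := Real.log_le_log (hx n) hb
    linarith [le_abs_self (Real.log M)]
  · -- existence of the solution
    let step : ℝ × ℝ × ℝ × ℝ → ℝ × ℝ × ℝ × ℝ := fun s =>
      (s.2.1, s.2.2.1, s.2.2.2, (α + β * s.2.2.2 + δ * s.1) / (B * s.2.2.1))
    let s0 : ℝ × ℝ × ℝ × ℝ := (1, 1, Real.exp (-m), Real.exp (2 * m))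
    refine ⟨fun n => (step^[n] s0).1, ⟨?_, ?_, ?_, ?_⟩, ?_, ?_, ?_, ?_, ?_⟩
    · show (0 : ℝ) < 1
      norm_num
    · show (0 : ℝ) < 1
      norm_num
    · exact Real.exp_pos _
    · exact Real.exp_pos _
    · intro n
      have h1 : ∀ n, (step^[n + 1] s0).1 = (step^[n] s0).2.1 := by
        intro n; rw [Function.iterate_succ_apply']
      have h2 : ∀ n, (step^[n + 1] s0).2.1 = (step^[n] s0).2.2.1 := by
        intro n; rw [Function.iterate_succ_apply']
      have h3 : ∀ n, (step^[n + 1] s0).2.2.1 = (step^[n] s0).2.2.2 := by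
        intro n; rw [Function.iterate_succ_apply']
      have h4 : ∀ n, (step^[n + 1] s0).2.2.2 =
          (α + β * (step^[n] s0).2.2.2 + δ * (step^[n] s0).1) / (B * (step^[n] s0).2.2.1) := by
        intro n; rw [Function.iterate_succ_apply']
      have e4 : (step^[n + 4] s0).1 = (step^[n + 1] s0).2.2.2 := by
        rw [h1 (n + 3), h2 (n + 2), h3 (n + 1)]
      have e3 : (step^[n + 3] s0).1 = (step^[n] s0).2.2.2 := by
        rw [h1 (n + 2), h2 (n + 1), h3 n]
      have e2 : (step^[n + 2] s0).1 = (step^[n] s0).2.2.1 := by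
        rw [h1 (n + 1), h2 n]
      show (step^[n + 4] s0).1 =
        (α + β * (step^[n + 3] s0).1 + δ * (step^[n] s0).1) / (B * (step^[n + 2] s0).1)
      rw [e4, e3, e2, h4 n]
    · show (1 : ℝ) ≤ Real.exp (2 * m)
      exact Real.one_le_exp (by linarith)
    · show (1 : ℝ) * Real.exp (-m) ≤ Real.exp (2 * m)
      rw [one_mul]
      exact Real.exp_le_exp.mpr (by linarith)
    · show Real.exp m * Real.exp (-m) ≤ 1
      rw [← Real.exp_add]; simp
    · show Real.exp m ≤ Real.exp (-m) * Real.exp (2 * m)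
      rw [← Real.exp_add]
      exact Real.exp_le_exp.mpr (by linarith)

end Pool.Agent.Results.MP_5c7d49_an.DelayedNumerator
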