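import Mathlib

set_option autoImplicit false

namespace Pool.Agent.Results.MP_5c7d49_an.FourthOrderCases

/-- The state of the cycle at time `n`, with margin `m`. -/
def State (l : ℕ → ℝ) (m : ℝ) (n : ℕ) : Prop :=
  l n ≤ l (n + 2) ∧ l (n + 1) ≤ l (n + 2) ∧ l (n + 3) ≤ -m ∧ m ≤ 2 * l (n + 3) - l (n + 2)

/-- State for the two-term denominator. -/
def StateA (l : ℕ → ℝ) (m : ℝ) (n : ℕ) : Prop :=
  l n ≤ l (n + 2) ∧ l (n + 1) ≤ l (n + 3) ∧ m ≤ -l (n + 2) - l (n + 3) ∧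
    m ≤ 2 * l (n + 3) - l (n + 2)

/-- Nine steps of `l(n+4) = l(n+3) - max (l(n+2), l n)`, with errors at most `K`. -/
lemma cycleA (l : ℕ → ℝ) (K : ℝ) (hK : 0 ≤ K)
    (H2 : ∀ n, l n ≤ l (n + 2) →
      l (n + 3) - l (n + 2) - K ≤ l (n + 4) ∧ l (n + 4) ≤ l (n + 3) - l (n + 2) + K)
    (H4 : ∀ n, l (n + 2) ≤ l n →
      l (n + 3) - l n - K ≤ l (n + 4) ∧ l (n + 4) ≤ l (n + 3) - l n + K)
    (n : ℕ) (m : ℝ) (hm : 200 * K ≤ m) (hm0 : 0 < m) (hS : StateA l m n) :
    StateA l (3 / 2 * m) (n + 9) ∧ m / 2 ≤ l (n + 5) := by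
  obtain ⟨h1, h2, h3, h4⟩ := hS
  obtain ⟨p1, q1⟩ : l (n + 3) - l (n + 2) - K ≤ l (n + 4) ∧ l (n + 4) ≤ l (n + 3) - l (n + 2) + K :=
    H2 n h1
  obtain ⟨p2, q2⟩ : l (n + 4) - l (n + 3) - K ≤ l (n + 5) ∧ l (n + 5) ≤ l (n + 4) - l (n + 3) + K :=
    H2 (n + 1) h2
  obtain ⟨p3, q3⟩ : l (n + 5) - l (n + 4) - K ≤ l (n + 6) ∧ l (n + 6) ≤ l (n + 5) - l (n + 4) + K :=
    H2 (n + 2) (show l (n + 2) ≤ l (n + 4) by linarith)
  obtain ⟨p4, q4⟩ : l (n + 6) - l (n + 5) - K ≤ l (n + 7) ∧ l (n + 7) ≤ l (n + 6) - l (n + 5) + K :=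
    H2 (n + 3) (show l (n + 3) ≤ l (n + 5) by linarith)
  obtain ⟨p5, q5⟩ : l (n + 7) - l (n + 4) - K ≤ l (n + 8) ∧ l (n + 8) ≤ l (n + 7) - l (n + 4) + K :=
    H4 (n + 4) (show l (n + 6) ≤ l (n + 4) by linarith)
  obtain ⟨p6, q6⟩ : l (n + 8) - l (n + 5) - K ≤ l (n + 9) ∧ l (n + 9) ≤ l (n + 8) - l (n + 5) + K :=
    H4 (n + 5) (show l (n + 7) ≤ l (n + 5) by linarith)
  obtain ⟨p7, q7⟩ : l (n + 9) - l (n + 6) - K ≤ l (n + 10) ∧
      l (n + 10) ≤ l (n + 9) - l (n + 6) + K :=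
    H4 (n + 6) (show l (n + 8) ≤ l (n + 6) by linarith)
  obtain ⟨p8, q8⟩ : l (n + 10) - l (n + 7) - K ≤ l (n + 11) ∧
      l (n + 11) ≤ l (n + 10) - l (n + 7) + K :=
    H4 (n + 7) (show l (n + 9) ≤ l (n + 7) by linarith)
  obtain ⟨p9, q9⟩ : l (n + 11) - l (n + 8) - K ≤ l (n + 12) ∧
      l (n + 12) ≤ l (n + 11) - l (n + 8) + K :=
    H4 (n + 8) (show l (n + 10) ≤ l (n + 8) by linarith)
  refine ⟨⟨?_, ?_, ?_, ?_⟩, by linarith⟩
  · show l (n + 9) ≤ l (n + 11)
    linarith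
  · show l (n + 10) ≤ l (n + 12)
    linarith
  · show 3 / 2 * m ≤ -l (n + 11) - l (n + 12)
    linarith
  · show 3 / 2 * m ≤ 2 * l (n + 12) - l (n + 11)
    linarith

/-- Nine steps of `l(n+4) = l(n+3) - max (l(n+2), l(n+1), l n)`, with errors at most `K`. -/
lemma cycleB (l : ℕ → ℝ) (K : ℝ) (hK : 0 ≤ K)
    (H2 : ∀ n, l (n + 1) ≤ l (n + 2) → l n ≤ l (n + 2) →
      l (n + 3) - l (n + 2) - K ≤ l (n + 4) ∧ l (n + 4) ≤ l (n + 3) - l (n + 2) + K)
    (H3 : ∀ n, l (n + 2) ≤ l (n + 1) → l n ≤ l (n + 1) →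
      l (n + 3) - l (n + 1) - K ≤ l (n + 4) ∧ l (n + 4) ≤ l (n + 3) - l (n + 1) + K)
    (H4 : ∀ n, l (n + 2) ≤ l n → l (n + 1) ≤ l n →
      l (n + 3) - l n - K ≤ l (n + 4) ∧ l (n + 4) ≤ l (n + 3) - l n + K)
    (n : ℕ) (m : ℝ) (hm : 200 * K ≤ m) (hm0 : 0 < m) (hS : State l m n) :
    State l (3 / 2 * m) (n + 9) ∧ m / 2 ≤ l (n + 5) := by
  obtain ⟨h1, h2, h3, h4⟩ := hS
  obtain ⟨p1, q1⟩ : l (n + 3) - l (n + 2) - K ≤ l (n + 4) ∧ l (n + 4) ≤ l (n + 3) - l (n + 2) + K :=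
    H2 n h2 h1
  obtain ⟨p2, q2⟩ : l (n + 4) - l (n + 3) - K ≤ l (n + 5) ∧ l (n + 5) ≤ l (n + 4) - l (n + 3) + K :=
    H2 (n + 1) (show l (n + 2) ≤ l (n + 3) by linarith) (show l (n + 1) ≤ l (n + 3) by linarith)
  obtain ⟨p3, q3⟩ : l (n + 5) - l (n + 4) - K ≤ l (n + 6) ∧ l (n + 6) ≤ l (n + 5) - l (n + 4) + K :=
    H2 (n + 2) (show l (n + 3) ≤ l (n + 4) by linarith) (show l (n + 2) ≤ l (n + 4) by linarith)
  obtain ⟨p4, q4⟩ : l (n + 6) - l (n + 5) - K ≤ l (n + 7) ∧ l (n + 7) ≤ l (n + 6) - l (n + 5) + K :=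
    H2 (n + 3) (show l (n + 4) ≤ l (n + 5) by linarith) (show l (n + 3) ≤ l (n + 5) by linarith)
  obtain ⟨p5, q5⟩ : l (n + 7) - l (n + 5) - K ≤ l (n + 8) ∧ l (n + 8) ≤ l (n + 7) - l (n + 5) + K :=
    H3 (n + 4) (show l (n + 6) ≤ l (n + 5) by linarith) (show l (n + 4) ≤ l (n + 5) by linarith)
  obtain ⟨p6, q6⟩ : l (n + 8) - l (n + 5) - K ≤ l (n + 9) ∧ l (n + 9) ≤ l (n + 8) - l (n + 5) + K :=
    H4 (n + 5) (show l (n + 7) ≤ l (n + 5) by linarith) (show l (n + 6) ≤ l (n + 5) by linarith)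
  obtain ⟨p7, q7⟩ : l (n + 9) - l (n + 6) - K ≤ l (n + 10) ∧
      l (n + 10) ≤ l (n + 9) - l (n + 6) + K :=
    H4 (n + 6) (show l (n + 8) ≤ l (n + 6) by linarith) (show l (n + 7) ≤ l (n + 6) by linarith)
  obtain ⟨p8, q8⟩ : l (n + 10) - l (n + 7) - K ≤ l (n + 11) ∧
      l (n + 11) ≤ l (n + 10) - l (n + 7) + K :=
    H4 (n + 7) (show l (n + 9) ≤ l (n + 7) by linarith) (show l (n + 8) ≤ l (n + 7) by linarith)
  obtain ⟨p9, q9⟩ : l (n + 11) - l (n + 8) - K ≤ l (n + 12) ∧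
      l (n + 12) ≤ l (n + 11) - l (n + 8) + K :=
    H4 (n + 8) (show l (n + 10) ≤ l (n + 8) by linarith) (show l (n + 9) ≤ l (n + 8) by linarith)
  refine ⟨⟨?_, ?_, ?_, ?_⟩, by linarith⟩
  · show l (n + 9) ≤ l (n + 11)
    linarith
  · show l (n + 10) ≤ l (n + 11)
    linarith
  · show l (n + 12) ≤ -(3 / 2 * m)
    linarith
  · show 3 / 2 * m ≤ 2 * l (n + 12) - l (n + 11)
    linarith

/-- A step with growing margins that reaches height `m / 2` forces unboundedness. -/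
lemma unbounded_of_step (l : ℕ → ℝ) (S : ℝ → ℕ → Prop) (m : ℝ) (hm0 : 1 ≤ m)
    (hstep : ∀ n m', m ≤ m' → S m' n → S (3 / 2 * m') (n + 9) ∧ m' / 2 ≤ l (n + 5))
    (h0 : S m 0) (M : ℝ) : ∃ n, M < l n := by
  have key : ∀ k : ℕ, S ((3 / 2) ^ k * m) (9 * k) := by
    intro k
    induction k with
    | zero => simpa using h0
    | succ k ih =>
      have h1k : (1 : ℝ) ≤ (3 / 2) ^ k := one_le_pow₀ (by norm_num)
      have h := (hstep (9 * k) ((3 / 2) ^ k * m) (by nlinarith) ih).1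
      have e : (3 / 2 : ℝ) ^ (k + 1) * m = 3 / 2 * ((3 / 2) ^ k * m) := by ring
      rw [e]; exact h
  obtain ⟨k, hk⟩ := pow_unbounded_of_one_lt (2 * |M| + 1) (by norm_num : (1 : ℝ) < 3 / 2)
  have h1k : (1 : ℝ) ≤ (3 / 2) ^ k := one_le_pow₀ (by norm_num)
  have h := (hstep (9 * k) ((3 / 2) ^ k * m) (by nlinarith) (key k)).2
  refine ⟨9 * k + 5, ?_⟩
  have h2 : (3 / 2 : ℝ) ^ k ≤ (3 / 2) ^ k * m := by nlinarith
  have h3 : M ≤ |M| := le_abs_self M
  linarith

/-- One step in logarithms: the denominator lies between `p t` and `q t`. -/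
lemma log_step {β p q t u den y : ℝ} (hβ : 0 < β) (hp : 0 < p) (hq : 0 < q) (ht : 0 < t)
    (hu : 0 < u) (h1 : p * t ≤ den) (h2 : den ≤ q * t) (hy : y = β * u / den) :
    Real.log u - Real.log t - (|Real.log β - Real.log p| + |Real.log β - Real.log q|) ≤
        Real.log y ∧
      Real.log y ≤
        Real.log u - Real.log t + (|Real.log β - Real.log p| + |Real.log β - Real.log q|) := by
  have hd : 0 < den := lt_of_lt_of_le (by positivity) h1
  have l1 := Real.log_le_log (by positivity) h1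
  have l2 := Real.log_le_log hd h2
  rw [Real.log_mul hp.ne' ht.ne'] at l1
  rw [Real.log_mul hq.ne' ht.ne'] at l2
  rw [hy, Real.log_div (by positivity) hd.ne', Real.log_mul hβ.ne' hu.ne']
  have a1 := abs_nonneg (Real.log β - Real.log p)
  have a2 := abs_nonneg (Real.log β - Real.log q)
  have b1 := le_abs_self (Real.log β - Real.log p)
  have b2 := neg_abs_le (Real.log β - Real.log q)
  constructor <;> linarith

/-- **The k = 4 cases `x_n = β x_{n-1} / (B x_{n-2} + C x_{n-3} + D x_{n-4})`, `C ≥ 0`.**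
For all `β, B, D > 0` and `C ≥ 0` there is `κ > 0` such that every solution with positive initial
values satisfying `x₀ ≤ x₂`, `x₁ ≤ x₂`, `κ x₂ ≤ x₃²`, `κ x₃ ≤ 1` is unbounded; such solutions
exist. -/
theorem result (β B C D : ℝ) (hβ : 0 < β) (hB : 0 < B) (hC : 0 ≤ C) (hD : 0 < D) :
    ∃ κ : ℝ, 0 < κ ∧
      (∀ x : ℕ → ℝ, (0 < x 0 ∧ 0 < x 1 ∧ 0 < x 2 ∧ 0 < x 3) →
        (∀ n, x (n + 4) = β * x (n + 3) / (B * x (n + 2) + C * x (n + 1) + D * x n)) →
        x 0 ≤ x 2 → x 1 ≤ x 2 → κ * x 2 ≤ x 3 ^ 2 → κ * x 3 ≤ 1 → ¬ BddAbove (Set.range x)) ∧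
      (∃ x : ℕ → ℝ, (0 < x 0 ∧ 0 < x 1 ∧ 0 < x 2 ∧ 0 < x 3) ∧
        (∀ n, x (n + 4) = β * x (n + 3) / (B * x (n + 2) + C * x (n + 1) + D * x n)) ∧
        x 0 ≤ x 2 ∧ x 1 ≤ x 2 ∧ κ * x 2 ≤ x 3 ^ 2 ∧ κ * x 3 ≤ 1) := by
  obtain ⟨p, hp, hpB, hpD, hpC⟩ : ∃ p : ℝ, 0 < p ∧ p ≤ B ∧ p ≤ D ∧ (C = 0 ∨ p ≤ C) := by
    rcases hC.eq_or_lt with h | h
    · exact ⟨min B D, lt_min hB hD, min_le_left _ _, min_le_right _ _, Or.inl h.symm⟩
    · exact ⟨min C (min B D), lt_min h (lt_min hB hD),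
        (min_le_right _ _).trans (min_le_left _ _), (min_le_right _ _).trans (min_le_right _ _),
        Or.inr (min_le_left _ _)⟩
  set q : ℝ := B + C + D with hqdef
  have hq : 0 < q := by positivity
  set K : ℝ := |Real.log β - Real.log p| + |Real.log β - Real.log q| with hKdef
  have hK : 0 ≤ K := by positivity
  set m : ℝ := 200 * K + 1 with hmdef
  have hm1 : 1 ≤ m := by rw [hmdef]; linarith
  have hm0 : 0 < m := by linarith
  refine ⟨Real.exp m, Real.exp_pos m, ?_, ?_⟩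
  · rintro x ⟨hx0, hx1, hx2, hx3⟩ hrec h02 h12 h23 h3 ⟨M, hM⟩
    have hpos : ∀ n, 0 < x n ∧ 0 < x (n + 1) ∧ 0 < x (n + 2) ∧ 0 < x (n + 3) := by
      intro n
      induction n with
      | zero => exact ⟨hx0, hx1, hx2, hx3⟩
      | succ n ih =>
        obtain ⟨a, b, c, d⟩ := ih
        refine ⟨b, c, d, ?_⟩
        have : x (n + 1 + 3) =
            β * x (n + 3) / (B * x (n + 2) + C * x (n + 1) + D * x n) := hrec n
        rw [this]; positivity
    have hx : ∀ n, 0 < x n := fun n => (hpos n).1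
    have mono : ∀ {i j : ℕ}, Real.log (x i) ≤ Real.log (x j) → x i ≤ x j := by
      intro i j h
      exact (Real.log_le_log_iff (hx i) (hx j)).mp h
    have i1 : Real.log (x 0) ≤ Real.log (x 2) := Real.log_le_log hx0 h02
    have i2 : Real.log (x 1) ≤ Real.log (x 2) := Real.log_le_log hx1 h12
    have i3 : Real.log (x 3) ≤ -m := by
      have := Real.log_le_log (by positivity) h3
      rw [Real.log_mul (Real.exp_pos m).ne' hx3.ne', Real.log_exp, Real.log_one] at this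
      linarith
    have i4 : m ≤ 2 * Real.log (x 3) - Real.log (x 2) := by
      have := Real.log_le_log (by positivity) h23
      rw [Real.log_mul (Real.exp_pos m).ne' hx2.ne', Real.log_exp, Real.log_pow] at this
      push_cast at this
      linarith
    have big : ∃ n, |Real.log M| < Real.log (x n) := by
      rcases hpC with h0 | hpC
      · -- two-term denominator
        refine unbounded_of_step (fun n => Real.log (x n))
          (fun m' n => StateA (fun n => Real.log (x n)) m' n) m hm1 ?_ ?_ |Real.log M|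
        · intro n m' hmm hS
          refine cycleA (fun n => Real.log (x n)) K hK ?_ ?_ n m' (by linarith) (by linarith) hS
          · intro n h
            have h' : x n ≤ x (n + 2) := mono h
            refine log_step hβ hp hq (hx (n + 2)) (hx (n + 3)) ?_ ?_ (hrec n)
            · rw [h0]; nlinarith [hx n, hx (n + 2), mul_pos hD (hx n)]
            · rw [hqdef, h0]; nlinarith [hx n, hx (n + 2)]
          · intro n h
            have h' : x (n + 2) ≤ x n := mono h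
            refine log_step hβ hp hq (hx n) (hx (n + 3)) ?_ ?_ (hrec n)
            · rw [h0]; nlinarith [hx n, hx (n + 2), mul_pos hB (hx (n + 2))]
            · rw [hqdef, h0]; nlinarith [hx n, hx (n + 2)]
        · refine ⟨i1, ?_, ?_, i4⟩
          · show Real.log (x 1) ≤ Real.log (x 3)
            linarith
          · show m ≤ -Real.log (x 2) - Real.log (x 3)
            linarith
      · have hC' : 0 < C := lt_of_lt_of_le hp hpC
        refine unbounded_of_step (fun n => Real.log (x n))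
          (fun m' n => State (fun n => Real.log (x n)) m' n) m hm1 ?_ ?_ |Real.log M|
        · intro n m' hmm hS
          refine cycleB (fun n => Real.log (x n)) K hK ?_ ?_ ?_ n m' (by linarith) (by linarith) hS
          · intro n h h2
            have h' : x (n + 1) ≤ x (n + 2) := mono h
            have h2' : x n ≤ x (n + 2) := mono h2
            refine log_step hβ hp hq (hx (n + 2)) (hx (n + 3)) ?_ ?_ (hrec n)
            · have := mul_le_mul_of_nonneg_right hpB (hx (n + 2)).le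
              linarith [mul_pos hD (hx n), mul_pos hC' (hx (n + 1))]
            · have e1 := mul_le_mul_of_nonneg_left h' hC'.le
              have e2 := mul_le_mul_of_nonneg_left h2' hD.le
              rw [hqdef]; linarith
          · intro n h h2
            have h' : x (n + 2) ≤ x (n + 1) := mono h
            have h2' : x n ≤ x (n + 1) := mono h2
            refine log_step hβ hp hq (hx (n + 1)) (hx (n + 3)) ?_ ?_ (hrec n)
            · have := mul_le_mul_of_nonneg_right hpC (hx (n + 1)).le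
              linarith [mul_pos hD (hx n), mul_pos hB (hx (n + 2))]
            · have e1 := mul_le_mul_of_nonneg_left h' hB.le
              have e2 := mul_le_mul_of_nonneg_left h2' hD.le
              rw [hqdef]; linarith
          · intro n h h2
            have h' : x (n + 2) ≤ x n := mono h
            have h2' : x (n + 1) ≤ x n := mono h2
            refine log_step hβ hp hq (hx n) (hx (n + 3)) ?_ ?_ (hrec n)
            · have := mul_le_mul_of_nonneg_right hpD (hx n).le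
              linarith [mul_pos hB (hx (n + 2)), mul_pos hC' (hx (n + 1))]
            · have e1 := mul_le_mul_of_nonneg_left h' hB.le
              have e2 := mul_le_mul_of_nonneg_left h2' hC'.le
              rw [hqdef]; linarith
        · exact ⟨i1, i2, i3, i4⟩
    obtain ⟨n, hn⟩ := big
    have hb : x n ≤ M := hM ⟨n, rfl⟩
    have hb2 : Real.log (x n) ≤ Real.log M := Real.log_le_log (hx n) hb
    linarith [le_abs_self (Real.log M)]
  · -- existence of the solution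
    let step : ℝ × ℝ × ℝ × ℝ → ℝ × ℝ × ℝ × ℝ := fun s =>
      (s.2.1, s.2.2.1, s.2.2.2, β * s.2.2.2 / (B * s.2.2.1 + C * s.2.1 + D * s.1))
    let s0 : ℝ × ℝ × ℝ × ℝ :=
      (Real.exp (-3 * m), Real.exp (-3 * m), Real.exp (-3 * m), Real.exp (-m))
    refine ⟨fun n => (step^[n] s0).1, ⟨?_, ?_, ?_, ?_⟩, ?_, ?_, ?_, ?_, ?_⟩
    · exact Real.exp_pos _
    · exact Real.exp_pos _
    · exact Real.exp_pos _
    · exact Real.exp_pos _
    · intro n
      have h1 : ∀ n, (step^[n + 1] s0).1 = (step^[n] s0).2.1 := by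
        intro n; rw [Function.iterate_succ_apply']
      have h2 : ∀ n, (step^[n + 1] s0).2.1 = (step^[n] s0).2.2.1 := by
        intro n; rw [Function.iterate_succ_apply']
      have h3 : ∀ n, (step^[n + 1] s0).2.2.1 = (step^[n] s0).2.2.2 := by
        intro n; rw [Function.iterate_succ_apply']
      have h4 : ∀ n, (step^[n + 1] s0).2.2.2 =
          β * (step^[n] s0).2.2.2 /
            (B * (step^[n] s0).2.2.1 + C * (step^[n] s0).2.1 + D * (step^[n] s0).1) := by
        intro n; rw [Function.iterate_succ_apply']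
      have e4 : (step^[n + 4] s0).1 = (step^[n + 1] s0).2.2.2 := by
        rw [h1 (n + 3), h2 (n + 2), h3 (n + 1)]
      have e3 : (step^[n + 3] s0).1 = (step^[n] s0).2.2.2 := by
        rw [h1 (n + 2), h2 (n + 1), h3 n]
      have e2 : (step^[n + 2] s0).1 = (step^[n] s0).2.2.1 := by
        rw [h1 (n + 1), h2 n]
      show (step^[n + 4] s0).1 = β * (step^[n + 3] s0).1 /
        (B * (step^[n + 2] s0).1 + C * (step^[n + 1] s0).1 + D * (step^[n] s0).1)
      rw [e4, e3, e2, h1 n, h4 n]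
    · exact le_refl _
    · exact le_refl _
    · show Real.exp m * Real.exp (-3 * m) ≤ Real.exp (-m) ^ 2
      rw [← Real.exp_add, ← Real.exp_nat_mul]
      apply Real.exp_le_exp.mpr
      push_cast
      linarith
    · show Real.exp m * Real.exp (-m) ≤ 1
      rw [← Real.exp_add]; simp

end Pool.Agent.Results.MP_5c7d49_an.FourthOrderCases
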