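import Mathlib

set_option autoImplicit false

namespace Pool.Agent.Results.MP_5c7d49_an.UnboundedCase

/-- One turn of the cycle: fifteen steps of `l ↦ l - max`, with errors at most `K`. -/
lemma cycle (l : ℕ → ℝ) (K : ℝ) (hK : 0 ≤ K)
    (H1 : ∀ n, l n ≤ l (n + 1) →
      l (n + 2) - l (n + 1) - K ≤ l (n + 3) ∧ l (n + 3) ≤ l (n + 2) - l (n + 1) + K)
    (H2 : ∀ n, l (n + 1) ≤ l n →
      l (n + 2) - l n - K ≤ l (n + 3) ∧ l (n + 3) ≤ l (n + 2) - l n + K)
    (n : ℕ) (m : ℝ) (hm : 200 * K ≤ m) (hm0 : 0 < m)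
    (hab : l n ≤ l (n + 1)) (hc : l (n + 2) ≤ -m) (hbc : m ≤ 2 * l (n + 2) - l (n + 1)) :
    l (n + 15) ≤ l (n + 16) ∧ l (n + 17) ≤ -(2 * m) ∧
      2 * m ≤ 2 * l (n + 17) - l (n + 16) ∧ m ≤ l (n + 4) := by
  have e1 : l (n + 2) - l (n + 1) - K ≤ l (n + 3) ∧ l (n + 3) ≤ l (n + 2) - l (n + 1) + K :=
    H1 n hab
  obtain ⟨p1, q1⟩ := e1
  have e2 : l (n + 3) - l (n + 2) - K ≤ l (n + 4) ∧ l (n + 4) ≤ l (n + 3) - l (n + 2) + K :=
    H1 (n + 1) (show l (n + 1) ≤ l (n + 2) by linarith)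
  obtain ⟨p2, q2⟩ := e2
  have e3 : l (n + 4) - l (n + 3) - K ≤ l (n + 5) ∧ l (n + 5) ≤ l (n + 4) - l (n + 3) + K :=
    H1 (n + 2) (show l (n + 2) ≤ l (n + 3) by linarith)
  obtain ⟨p3, q3⟩ := e3
  have e4 : l (n + 5) - l (n + 4) - K ≤ l (n + 6) ∧ l (n + 6) ≤ l (n + 5) - l (n + 4) + K :=
    H1 (n + 3) (show l (n + 3) ≤ l (n + 4) by linarith)
  obtain ⟨p4, q4⟩ := e4
  have e5 : l (n + 6) - l (n + 4) - K ≤ l (n + 7) ∧ l (n + 7) ≤ l (n + 6) - l (n + 4) + K :=
    H2 (n + 4) (show l (n + 5) ≤ l (n + 4) by linarith)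
  obtain ⟨p5, q5⟩ := e5
  have e6 : l (n + 7) - l (n + 5) - K ≤ l (n + 8) ∧ l (n + 8) ≤ l (n + 7) - l (n + 5) + K :=
    H2 (n + 5) (show l (n + 6) ≤ l (n + 5) by linarith)
  obtain ⟨p6, q6⟩ := e6
  have e7 : l (n + 8) - l (n + 6) - K ≤ l (n + 9) ∧ l (n + 9) ≤ l (n + 8) - l (n + 6) + K :=
    H2 (n + 6) (show l (n + 7) ≤ l (n + 6) by linarith)
  obtain ⟨p7, q7⟩ := e7
  have e8 : l (n + 9) - l (n + 7) - K ≤ l (n + 10) ∧ l (n + 10) ≤ l (n + 9) - l (n + 7) + K :=
    H2 (n + 7) (show l (n + 8) ≤ l (n + 7) by linarith)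
  obtain ⟨p8, q8⟩ := e8
  have e9 : l (n + 10) - l (n + 9) - K ≤ l (n + 11) ∧ l (n + 11) ≤ l (n + 10) - l (n + 9) + K :=
    H1 (n + 8) (show l (n + 8) ≤ l (n + 9) by linarith)
  obtain ⟨p9, q9⟩ := e9
  have e10 : l (n + 11) - l (n + 10) - K ≤ l (n + 12) ∧
      l (n + 12) ≤ l (n + 11) - l (n + 10) + K :=
    H1 (n + 9) (show l (n + 9) ≤ l (n + 10) by linarith)
  obtain ⟨p10, q10⟩ := e10
  have e11 : l (n + 12) - l (n + 11) - K ≤ l (n + 13) ∧
      l (n + 13) ≤ l (n + 12) - l (n + 11) + K :=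
    H1 (n + 10) (show l (n + 10) ≤ l (n + 11) by linarith)
  obtain ⟨p11, q11⟩ := e11
  have e12 : l (n + 13) - l (n + 11) - K ≤ l (n + 14) ∧
      l (n + 14) ≤ l (n + 13) - l (n + 11) + K :=
    H2 (n + 11) (show l (n + 12) ≤ l (n + 11) by linarith)
  obtain ⟨p12, q12⟩ := e12
  have e13 : l (n + 14) - l (n + 12) - K ≤ l (n + 15) ∧
      l (n + 15) ≤ l (n + 14) - l (n + 12) + K :=
    H2 (n + 12) (show l (n + 13) ≤ l (n + 12) by linarith)
  obtain ⟨p13, q13⟩ := e13
  have e14 : l (n + 15) - l (n + 13) - K ≤ l (n + 16) ∧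
      l (n + 16) ≤ l (n + 15) - l (n + 13) + K :=
    H2 (n + 13) (show l (n + 14) ≤ l (n + 13) by linarith)
  obtain ⟨p14, q14⟩ := e14
  have e15 : l (n + 16) - l (n + 14) - K ≤ l (n + 17) ∧
      l (n + 17) ≤ l (n + 16) - l (n + 14) + K :=
    H2 (n + 14) (show l (n + 15) ≤ l (n + 14) by linarith)
  obtain ⟨p15, q15⟩ := e15
  refine ⟨by linarith, by linarith, by linarith, by linarith⟩

/-- Iterating the cycle. -/
lemma iter (l : ℕ → ℝ) (K : ℝ) (hK : 0 ≤ K)
    (H1 : ∀ n, l n ≤ l (n + 1) →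
      l (n + 2) - l (n + 1) - K ≤ l (n + 3) ∧ l (n + 3) ≤ l (n + 2) - l (n + 1) + K)
    (H2 : ∀ n, l (n + 1) ≤ l n →
      l (n + 2) - l n - K ≤ l (n + 3) ∧ l (n + 3) ≤ l (n + 2) - l n + K)
    (m : ℝ) (hm : 200 * K ≤ m) (hm0 : 0 < m)
    (hab : l 0 ≤ l 1) (hc : l 2 ≤ -m) (hbc : m ≤ 2 * l 2 - l 1) (k : ℕ) :
    l (15 * k) ≤ l (15 * k + 1) ∧ l (15 * k + 2) ≤ -(2 ^ k * m) ∧
      2 ^ k * m ≤ 2 * l (15 * k + 2) - l (15 * k + 1) := by
  induction k with
  | zero => simpa using ⟨hab, hc, hbc⟩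
  | succ k ih =>
    obtain ⟨h1, h2, h3⟩ := ih
    have h2k : (1 : ℝ) ≤ 2 ^ k := one_le_pow₀ (by norm_num)
    have hmk : 200 * K ≤ 2 ^ k * m := by nlinarith
    have hmk0 : 0 < 2 ^ k * m := by positivity
    obtain ⟨g1, g2, g3, -⟩ := cycle l K hK H1 H2 (15 * k) (2 ^ k * m) hmk hmk0 h1 h2 h3
    have ek : 15 * (k + 1) = 15 * k + 15 := by ring
    rw [ek, pow_succ]
    refine ⟨g1, ?_, ?_⟩
    · have : l (15 * k + 15 + 2) = l (15 * k + 17) := rfl
      rw [this]; linarith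
    · have e1 : l (15 * k + 15 + 2) = l (15 * k + 17) := rfl
      have e2 : l (15 * k + 15 + 1) = l (15 * k + 16) := rfl
      rw [e1, e2]; linarith

/-- The bound on the denominator. -/
lemma log_den {B C y z : ℝ} (hB : 0 < B) (hC : 0 < C) (hy : 0 < y) (hz : 0 < z) :
    Real.log (min B C) + max (Real.log y) (Real.log z) ≤ Real.log (B * y + C * z) ∧
      Real.log (B * y + C * z) ≤ Real.log (B + C) + max (Real.log y) (Real.log z) := by
  have hp : 0 < min B C := lt_min hB hC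
  have hmax : max (Real.log y) (Real.log z) = Real.log (max y z) := by
    rcases le_total y z with h | h
    · rw [max_eq_right h, max_eq_right (Real.log_le_log hy h)]
    · rw [max_eq_left h, max_eq_left (Real.log_le_log hz h)]
  have hm : 0 < max y z := lt_max_of_lt_left hy
  rw [hmax, ← Real.log_mul hp.ne' hm.ne', ← Real.log_mul (by positivity) hm.ne']
  constructor
  · apply Real.log_le_log (by positivity)
    rcases le_total y z with h | h
    · rw [max_eq_right h]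
      have : min B C * z ≤ C * z := mul_le_mul_of_nonneg_right (min_le_right _ _) hz.le
      nlinarith [mul_pos hB hy]
    · rw [max_eq_left h]
      have : min B C * y ≤ B * y := mul_le_mul_of_nonneg_right (min_le_left _ _) hy.le
      nlinarith [mul_pos hC hz]
  · apply Real.log_le_log (by positivity)
    have h1 : y ≤ max y z := le_max_left _ _
    have h2 : z ≤ max y z := le_max_right _ _
    nlinarith

/-- **The special case `x_n = β x_{n-1} / (B x_{n-2} + C x_{n-3})` is never bounded.**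
For all positive parameters `β, B, C` there is a constant `κ > 0` such that every solution with
positive initial values satisfying `x₀ ≤ x₁`, `κ x₁ ≤ x₂²` and `κ x₂ ≤ 1` is unbounded; and such
solutions exist. -/
theorem result (β B C : ℝ) (hβ : 0 < β) (hB : 0 < B) (hC : 0 < C) :
    ∃ κ : ℝ, 0 < κ ∧
      (∀ x : ℕ → ℝ, (0 < x 0 ∧ 0 < x 1 ∧ 0 < x 2) →
        (∀ n, x (n + 3) = β * x (n + 2) / (B * x (n + 1) + C * x n)) →
        x 0 ≤ x 1 → κ * x 1 ≤ x 2 ^ 2 → κ * x 2 ≤ 1 → ¬ BddAbove (Set.range x)) ∧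
      (∃ x : ℕ → ℝ, (0 < x 0 ∧ 0 < x 1 ∧ 0 < x 2) ∧
        (∀ n, x (n + 3) = β * x (n + 2) / (B * x (n + 1) + C * x n)) ∧
        x 0 ≤ x 1 ∧ κ * x 1 ≤ x 2 ^ 2 ∧ κ * x 2 ≤ 1) := by
  set K : ℝ := |Real.log β - Real.log (min B C)| + |Real.log β - Real.log (B + C)| with hKdef
  have hK : 0 ≤ K := by positivity
  set m : ℝ := 200 * K + 1 with hmdef
  have hm0 : 0 < m := by positivity
  refine ⟨Real.exp m, Real.exp_pos m, ?_, ?_⟩
  · rintro x ⟨hx0, hx1, hx2⟩ hrec h01 h12 h21 ⟨M, hM⟩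
    have hpos : ∀ n, 0 < x n ∧ 0 < x (n + 1) ∧ 0 < x (n + 2) := by
      intro n
      induction n with
      | zero => exact ⟨hx0, hx1, hx2⟩
      | succ n ih =>
        obtain ⟨a, b, c⟩ := ih
        refine ⟨b, c, ?_⟩
        have : x (n + 1 + 2) = β * x (n + 2) / (B * x (n + 1) + C * x n) := hrec n
        rw [this]; positivity
    have hp : ∀ n, 0 < x n := fun n => (hpos n).1
    have hl : ∀ n, Real.log (x (n + 3)) =
        Real.log β + Real.log (x (n + 2)) - Real.log (B * x (n + 1) + C * x n) := by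
      intro n
      have h1 := hp n
      have h2 := hp (n + 1)
      have h3 := hp (n + 2)
      rw [hrec n, Real.log_div (by positivity) (by positivity), Real.log_mul hβ.ne' h3.ne']
    have a1 : |Real.log β - Real.log (min B C)| ≤ K := by
      rw [hKdef]; linarith [abs_nonneg (Real.log β - Real.log (B + C))]
    have a2 : |Real.log β - Real.log (B + C)| ≤ K := by
      rw [hKdef]; linarith [abs_nonneg (Real.log β - Real.log (min B C))]
    obtain ⟨a11, a12⟩ := abs_le.mp a1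
    obtain ⟨a21, a22⟩ := abs_le.mp a2
    have H1 : ∀ n, Real.log (x n) ≤ Real.log (x (n + 1)) →
        Real.log (x (n + 2)) - Real.log (x (n + 1)) - K ≤ Real.log (x (n + 3)) ∧
          Real.log (x (n + 3)) ≤ Real.log (x (n + 2)) - Real.log (x (n + 1)) + K := by
      intro n h
      obtain ⟨d1, d2⟩ := log_den hB hC (hp (n + 1)) (hp n)
      rw [max_eq_left h] at d1 d2
      rw [hl n]
      constructor <;> linarith
    have H2 : ∀ n, Real.log (x (n + 1)) ≤ Real.log (x n) →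
        Real.log (x (n + 2)) - Real.log (x n) - K ≤ Real.log (x (n + 3)) ∧
          Real.log (x (n + 3)) ≤ Real.log (x (n + 2)) - Real.log (x n) + K := by
      intro n h
      obtain ⟨d1, d2⟩ := log_den hB hC (hp (n + 1)) (hp n)
      rw [max_eq_right h] at d1 d2
      rw [hl n]
      constructor <;> linarith
    have hab : Real.log (x 0) ≤ Real.log (x 1) := Real.log_le_log hx0 h01
    have hc : Real.log (x 2) ≤ -m := by
      have := Real.log_le_log (by positivity) h21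
      rw [Real.log_mul (Real.exp_pos m).ne' hx2.ne', Real.log_exp, Real.log_one] at this
      linarith
    have hbc : m ≤ 2 * Real.log (x 2) - Real.log (x 1) := by
      have := Real.log_le_log (by positivity) h12
      rw [Real.log_mul (Real.exp_pos m).ne' hx1.ne', Real.log_exp, Real.log_pow] at this
      push_cast at this
      linarith
    obtain ⟨k, hk⟩ := pow_unbounded_of_one_lt (|Real.log M| + 1) (by norm_num : (1 : ℝ) < 2)
    obtain ⟨g1, g2, g3⟩ := iter (fun n => Real.log (x n)) K hK H1 H2 m (by linarith) hm0 hab hc hbc k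
    have hmk : 200 * K ≤ 2 ^ k * m := by
      have h2k : (1 : ℝ) ≤ 2 ^ k := one_le_pow₀ (by norm_num)
      nlinarith
    obtain ⟨-, -, -, g4⟩ := cycle (fun n => Real.log (x n)) K hK H1 H2 (15 * k) (2 ^ k * m) hmk
      (by positivity) g1 g2 g3
    have hb : x (15 * k + 4) ≤ M := hM ⟨15 * k + 4, rfl⟩
    have hb2 : Real.log (x (15 * k + 4)) ≤ Real.log M := Real.log_le_log (hp _) hb
    have h2k : (0 : ℝ) < 2 ^ k := by positivity
    have hm1 : 1 ≤ m := by rw [hmdef]; linarith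
    have : (2 : ℝ) ^ k ≤ 2 ^ k * m := by nlinarith
    have h5 : Real.log M ≤ |Real.log M| := le_abs_self _
    linarith
  · -- existence of the solution
    let step : ℝ × ℝ × ℝ → ℝ × ℝ × ℝ := fun s => (s.2.1, s.2.2, β * s.2.2 / (B * s.2.1 + C * s.1))
    let s0 : ℝ × ℝ × ℝ := (Real.exp (-3 * m), Real.exp (-3 * m), Real.exp (-m))
    refine ⟨fun n => (step^[n] s0).1, ⟨?_, ?_, ?_⟩, ?_, ?_, ?_, ?_⟩
    · exact Real.exp_pos _
    · exact Real.exp_pos _
    · exact Real.exp_pos _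
    · intro n
      have h1 : ∀ n, (step^[n + 1] s0).1 = (step^[n] s0).2.1 := by
        intro n; rw [Function.iterate_succ_apply']
      have h2 : ∀ n, (step^[n + 1] s0).2.1 = (step^[n] s0).2.2 := by
        intro n; rw [Function.iterate_succ_apply']
      have h3 : ∀ n, (step^[n + 1] s0).2.2 =
          β * (step^[n] s0).2.2 / (B * (step^[n] s0).2.1 + C * (step^[n] s0).1) := by
        intro n; rw [Function.iterate_succ_apply']
      have e3 : (step^[n + 3] s0).1 = (step^[n + 1] s0).2.2 := by rw [h1 (n + 2), h2 (n + 1)]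
      have e2 : (step^[n + 2] s0).1 = (step^[n] s0).2.2 := by rw [h1 (n + 1), h2 n]
      show (step^[n + 3] s0).1 =
        β * (step^[n + 2] s0).1 / (B * (step^[n + 1] s0).1 + C * (step^[n] s0).1)
      rw [e3, e2, h3 n, h1 n]
    · exact le_refl _
    · show Real.exp m * Real.exp (-3 * m) ≤ Real.exp (-m) ^ 2
      rw [← Real.exp_add, ← Real.exp_nat_mul]
      apply Real.exp_le_exp.mpr
      push_cast
      linarith
    · show Real.exp m * Real.exp (-m) ≤ 1
      rw [← Real.exp_add]; simp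

end Pool.Agent.Results.MP_5c7d49_an.UnboundedCase
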